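import Pool.Agent.helper58.DC.Spec4

/-!
# MOD AS4: the alternating sums over lists and over finite sets agree
-/

set_option autoImplicit false

open Pool.Agent Pool.Agent.helper58.DC

namespace Pool.Agent.helper59.DZ

theorem AS4_one {G : Type} [Group G] (C : Finset (Subgroup G)) :
    chainMap (MulAut.conj (1 : G)) C = C := by
  classical
  unfold chainMap
  rw [map_one]
  conv_rhs => rw [← Finset.image_id (s := C)]
  refine Finset.image_congr fun P _ => ?_
  exact Subgroup.map_id P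

theorem AS4_mul {G : Type} [Group G] (g h : G) (C : Finset (Subgroup G)) :
    chainMap (MulAut.conj (g * h)) C = chainMap (MulAut.conj g) (chainMap (MulAut.conj h) C) := by
  classical
  unfold chainMap
  rw [Finset.image_image]
  refine Finset.image_congr fun P _ => ?_
  simp only [Function.comp_apply, Subgroup.map_map, map_mul]
  rfl

theorem AS4_eqv {G : Type} [Group G] (p : ℕ) (a b : {C : Finset (Subgroup G) // IsRadical p C})
    (h : Quot.mk (chainRel p) a = Quot.mk (chainRel p) b) :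
    ∃ g : G, chainMap (MulAut.conj g) a.1 = b.1 := by
  have h1 := Quot.eqvGen_exact h
  clear h
  induction h1 with
  | rel x y hxy => exact hxy
  | refl x => exact ⟨1, AS4_one _⟩
  | symm x y _ ih =>
    obtain ⟨g, hg⟩ := ih
    refine ⟨g⁻¹, ?_⟩
    rw [← hg, ← AS4_mul, inv_mul_cancel, AS4_one]
  | trans x y z _ _ ih1 ih2 =>
    obtain ⟨g, hg⟩ := ih1
    obtain ⟨k, hk⟩ := ih2
    exact ⟨k * g, by rw [AS4_mul, hg, hk]⟩

theorem AS4 (hLF : LF_stmt) (hKC : KC_stmt) (hCJK : DD.CJK_stmt) : AS4_stmt := by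
  classical
  intro G E A _ _ _ _ X p M χ hχ d T hT
  obtain ⟨_, hrad, hex, _, hconj⟩ := hLF G p
  have hnorm : X.inc.range.Normal := by
    refine ⟨fun e he g => ?_⟩
    obtain ⟨x, rfl⟩ := he
    have h1 : X.proj (X.inc x) = 1 := (X.exact _).2 ⟨x, rfl⟩
    have h2 : X.proj (g * X.inc x * g⁻¹) = 1 := by
      rw [map_mul, map_mul, h1, mul_one, map_inv, mul_inv_cancel]
    obtain ⟨y, hy⟩ := (X.exact _).1 h2
    exact ⟨y, hy⟩
  unfold DD.altT altSum
  rw [← Finset.sum_coe_sort T, ← finsum_eq_sum_of_fintype]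
  let e : T → Quot (chainRel (G := G) p) := fun C =>
    Quot.mk _ ⟨C.1.toFinset, (hrad C.1 (hT.rad C.1 C.2)).1⟩
  refine finsum_eq_of_bijective e ⟨?_, ?_⟩ ?_
  · intro C C' h
    obtain ⟨g, hg⟩ := AS4_eqv p _ _ h
    have h1 : DD.Conj C.1 C'.1 := (hconj C.1 C'.1 (hT.rad _ C.2) (hT.rad _ C'.2)).2 ⟨g, hg⟩
    exact Subtype.ext (hT.uniq _ C.2 _ C'.2 h1)
  · intro c
    obtain ⟨⟨D, hD⟩, rfl⟩ := Quot.exists_rep c
    obtain ⟨C, hC, hCD⟩ := hex D hD
    obtain ⟨C', hC', hcc⟩ := hT.ex C hC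
    refine ⟨⟨C', hC'⟩, ?_⟩
    symm
    apply Quot.sound
    obtain ⟨g, hg⟩ := (hconj C C' hC (hT.rad _ hC')).1 hcc
    refine ⟨g, ?_⟩
    change chainMap (MulAut.conj g) D = C'.toFinset
    rw [← hCD]
    exact hg
  · intro C
    have hCr := hT.rad C.1 C.2
    obtain ⟨C₁, hC₁, hC₁D⟩ := hex (e C).out.1 (e C).out.2
    have h1 : Quot.mk (chainRel p) (e C).out = e C := Quot.out_eq _
    obtain ⟨g, hg⟩ := AS4_eqv p _ _ h1
    have h2 : DD.Conj C₁ C.1 := by
      refine (hconj C₁ C.1 hC₁ hCr).2 ⟨g, ?_⟩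
      rw [hC₁D]
      exact hg
    have h3 := hCJK G E X.inc X.inc_injective hnorm p M χ C₁ C.1 d ⊤ h2
    have h4 := hKC G E A X p M χ hχ d C₁ hC₁
    have h5 : C.1.length = (e C).out.1.card := by
      obtain ⟨g', hg'⟩ := h2
      rw [hg', List.length_map, ← (hrad C₁ hC₁).2, hC₁D]
    rw [h3, h4, h5, hC₁D]

end Pool.Agent.helper59.DZ
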